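import Mathlib

set_option autoImplicit false

/-!
# Solutions of polynomial systems with parameters: algebraic quasi-sections
-/

namespace Pool.Agent.Q281.Sol

open MvPolynomial

variable {k : Type} [Field k] [IsAlgClosed k] {σ τ : Type}

/-- `x` solves the system `P = 0`, `Q ≠ 0` with parameters `y` -/
def IsSol (P : Set (MvPolynomial σ (MvPolynomial τ k))) (Q : MvPolynomial σ (MvPolynomial τ k))
    (y : τ → k) (x : σ → k) : Prop :=
  (∀ p ∈ P, eval₂ (eval y) x p = 0) ∧ eval₂ (eval y) x Q ≠ 0

/-- an element of a domain over an algebraically closed field which is a root of a nonzero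
polynomial is a constant -/
lemma exists_of_root {κ : Type} [Field κ] (e : k →+* κ) (f : Polynomial k) (hf : f ≠ 0) (z : κ)
    (hz : (f.map e).eval z = 0) : ∃ a : k, e a = z ∧ f.eval a = 0 := by
  have h1 : f.Splits := IsAlgClosed.splits f
  have h2 := h1.eq_prod_roots
  rw [h2] at hz
  rw [Polynomial.map_mul, Polynomial.map_C, Polynomial.eval_mul, Polynomial.eval_C,
    Polynomial.map_multiset_prod, Multiset.map_map, Polynomial.eval_multiset_prod,
    Multiset.map_map] at hz
  rcases mul_eq_zero.mp hz with h | h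
  · exfalso
    exact hf (Polynomial.leadingCoeff_eq_zero.mp ((map_eq_zero e).mp h))
  · rw [Multiset.prod_eq_zero_iff, Multiset.mem_map] at h
    obtain ⟨a, ha, h3⟩ := h
    refine ⟨a, ?_, (Polynomial.mem_roots hf).mp ha⟩
    simp only [Function.comp_apply, Polynomial.map_sub, Polynomial.map_X, Polynomial.map_C,
      Polynomial.eval_sub, Polynomial.eval_X, Polynomial.eval_C] at h3
    exact (sub_eq_zero.mp h3).symm

/-- a root of a polynomial over a valuation subring whose leading coefficient is a unit is in the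
valuation subring -/
lemma mem_of_root {L : Type} [Field L] (V : ValuationSubring L) (f : Polynomial V)
    (hf : IsUnit f.leadingCoeff) (x : L) (hx : (f.map V.subtype).eval x = 0) : x ∈ V := by
  have h1 : IsIntegral V x := by
    refine ⟨Polynomial.C (↑hf.unit⁻¹ : V) * f, ?_, ?_⟩
    · rw [Polynomial.Monic, Polynomial.leadingCoeff_mul, Polynomial.leadingCoeff_C]
      exact hf.val_inv_mul
    · rw [Polynomial.eval₂_mul]
      have : Polynomial.eval₂ (algebraMap V L) x f = 0 := by
        rw [Polynomial.eval_map] at hx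
        exact hx
      rw [this, mul_zero]
  obtain ⟨y, hy⟩ := IsIntegrallyClosed.isIntegral_iff.mp h1
  rw [← hy]
  exact y.2

/-- specialisation of an algebraic point -/
theorem specialise {L : Type} [Field L] (f : MvPolynomial τ k →+* L) (x : σ → L) (w : L)
    (N : σ → Polynomial (MvPolynomial τ k)) (N' : Polynomial (MvPolynomial τ k))
    (hN : ∀ i, ((N i).map f).eval (x i) = 0) (hN' : (N'.map f).eval w = 0)
    (y : τ → k) (hy : ∀ r, f r = 0 → eval y r = 0)
    (hNy : ∀ i, eval y (N i).leadingCoeff ≠ 0) (hNy' : eval y N'.leadingCoeff ≠ 0)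
    (P : Set (MvPolynomial σ (MvPolynomial τ k))) (Q : MvPolynomial σ (MvPolynomial τ k))
    (hP : ∀ p ∈ P, eval₂ f x p = 0) (hQ : eval₂ f x Q * w = 1) :
    ∃ a : σ → k, IsSol P Q y a ∧ ∀ i, (N i).map (eval y) ≠ 0 ∧ ((N i).map (eval y)).eval (a i) = 0 := by
  -- a valuation subring above the point
  let J : Ideal f.range := Ideal.map f.rangeRestrict (RingHom.ker (eval y))
  have hJ : ∀ r, f.rangeRestrict r ∈ J → eval y r = 0 := by
    intro r hr
    obtain ⟨s, hs, h1⟩ := (Ideal.mem_map_iff_of_surjective _ f.rangeRestrict_surjective).mp hr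
    have h2 : f (s - r) = 0 := by
      rw [map_sub]
      have := congrArg (fun z : f.range => (z : L)) h1
      simp only [RingHom.coe_rangeRestrict] at this
      rw [this, sub_self]
    have h3 := hy _ h2
    rw [map_sub, (RingHom.mem_ker).mp hs, zero_sub, neg_eq_zero] at h3
    exact h3
  have hJtop : J ≠ ⊤ := by
    intro h
    have h1 : f.rangeRestrict 1 ∈ J := by rw [h]; trivial
    have := hJ 1 h1
    rw [map_one] at this
    exact one_ne_zero this
  obtain ⟨V, hV1, hV2⟩ := Ideal.image_subset_nonunits_valuationSubring J hJtop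
  have hfV : ∀ r, f r ∈ V := fun r => hV1 ⟨r, rfl⟩
  let g : MvPolynomial τ k →+* V := f.codRestrict V.toSubring hfV
  have hg : ∀ r, ((g r : V) : L) = f r := fun r => rfl
  let ψ : V →+* IsLocalRing.ResidueField V := IsLocalRing.residue V
  let e : k →+* IsLocalRing.ResidueField V := (ψ.comp g).comp C
  have hker : ∀ r, eval y r = 0 → ψ (g r) = 0 := by
    intro r hr
    rw [IsLocalRing.residue_eq_zero_iff, IsLocalRing.mem_maximalIdeal, mem_nonunits_iff]
    intro hu
    have h1 : (f.rangeRestrict r : L) ∈ V.nonunits := hV2 ⟨f.rangeRestrict r,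
      Ideal.mem_map_of_mem _ hr, rfl⟩
    rw [ValuationSubring.mem_nonunits_iff_exists_mem_maximalIdeal] at h1
    obtain ⟨h2, h3⟩ := h1
    rw [IsLocalRing.mem_maximalIdeal, mem_nonunits_iff] at h3
    exact h3 hu
  have hψ : ∀ r, ψ (g r) = e (eval y r) := by
    intro r
    have h1 := hker (r - C (eval y r)) (by simp)
    rw [map_sub, map_sub, sub_eq_zero] at h1
    exact h1
  have hψ' : ψ.comp g = e.comp (eval y) := RingHom.ext hψ
  have hunit : ∀ r, eval y r ≠ 0 → IsUnit (g r) := by
    intro r hr
    rw [← IsLocalRing.residue_ne_zero_iff_isUnit]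
    have := hψ r
    change ψ (g r) ≠ 0
    rw [this, Ne, map_eq_zero]
    exact hr
  -- roots are in the valuation ring
  have hmem : ∀ (M : Polynomial (MvPolynomial τ k)) (z : L), (M.map f).eval z = 0 →
      eval y M.leadingCoeff ≠ 0 → z ∈ V := by
    intro M z hz hM
    have hlc : (M.map g).leadingCoeff = g M.leadingCoeff := by
      apply Polynomial.leadingCoeff_map_of_leadingCoeff_ne_zero
      exact (hunit _ hM).ne_zero
    apply mem_of_root V (M.map g)
    · rw [hlc]
      exact hunit _ hM
    · rw [Polynomial.map_map]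
      exact hz
  have hx : ∀ i, x i ∈ V := fun i => hmem _ _ (hN i) (hNy i)
  have hw : w ∈ V := hmem _ _ hN' hNy'
  have hNne : ∀ i, (N i).map (eval y) ≠ 0 := by
    intro i h
    have h1 := congrArg (fun q => q.coeff (N i).natDegree) h
    simp only [Polynomial.coeff_map, Polynomial.coeff_natDegree, Polynomial.coeff_zero] at h1
    exact hNy i h1
  -- the residues
  have hres : ∀ i, ∃ a : k, e a = ψ ⟨x i, hx i⟩ ∧ ((N i).map (eval y)).eval a = 0 := by
    intro i
    apply exists_of_root e _ (hNne i)
    rw [Polynomial.map_map, ← hψ', ← Polynomial.map_map, Polynomial.eval_map,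
      Polynomial.eval₂_at_apply]
    have h1 : ((N i).map g).eval ⟨x i, hx i⟩ = 0 := by
      apply Subtype.ext
      have h2 := Polynomial.eval₂_at_apply (p := (N i).map g) V.subtype ⟨x i, hx i⟩
      rw [← Polynomial.eval_map, Polynomial.map_map] at h2
      exact h2.symm.trans (hN i)
    rw [h1, map_zero]
  choose a ha1 ha2 using hres
  -- polynomials
  have hpoly : ∀ p : MvPolynomial σ (MvPolynomial τ k),
      e (eval₂ (eval y) a p) = ψ (eval₂ g (fun i => ⟨x i, hx i⟩) p) := by
    intro p
    rw [← coe_eval₂Hom, ← coe_eval₂Hom, ← RingHom.comp_apply, ← RingHom.comp_apply]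
    congr 1
    apply MvPolynomial.ringHom_ext
    · intro r
      simp only [RingHom.comp_apply, coe_eval₂Hom, eval₂_C]
      exact (hψ r).symm
    · intro i
      simp only [RingHom.comp_apply, coe_eval₂Hom, eval₂_X]
      exact ha1 i
  have hpoly' : ∀ p : MvPolynomial σ (MvPolynomial τ k),
      ((eval₂ g (fun i => ⟨x i, hx i⟩) p : V) : L) = eval₂ f x p := by
    intro p
    have h1 : (V.subtype : V →+* L) (eval₂ g (fun i => ⟨x i, hx i⟩) p) = eval₂ f x p := by
      rw [← coe_eval₂Hom, ← coe_eval₂Hom, ← RingHom.comp_apply]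
      congr 1
      apply MvPolynomial.ringHom_ext
      · intro r
        simp only [RingHom.comp_apply, coe_eval₂Hom, eval₂_C]
        rfl
      · intro i
        simp only [RingHom.comp_apply, coe_eval₂Hom, eval₂_X]
        rfl
    exact h1
  refine ⟨a, ⟨?_, ?_⟩, fun i => ⟨hNne i, ha2 i⟩⟩
  · intro p hp
    apply e.injective
    rw [hpoly, map_zero]
    have h1 : eval₂ g (fun i => (⟨x i, hx i⟩ : V)) p = 0 := by
      apply Subtype.ext
      rw [hpoly', hP p hp]
      rfl
    rw [h1, map_zero]
  · intro h
    have h1 := hpoly Q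
    rw [h, map_zero] at h1
    have h2 : (eval₂ g (fun i => (⟨x i, hx i⟩ : V)) Q) * ⟨w, hw⟩ = 1 := by
      apply Subtype.ext
      rw [MulMemClass.coe_mul, hpoly', hQ]
      rfl
    have h3 := congrArg ψ h2
    rw [map_mul, ← h1, zero_mul, map_one] at h3
    exact zero_ne_one h3

end Pool.Agent.Q281.Sol
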