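import Mathlib
import Pool.Agent.Helper259.AbsHt

set_option autoImplicit false

/-!
# Quasi-projective varieties over the algebraic numbers: definitions
-/

namespace Pool.Agent.Q281.Sol

open Pool.Agent.Helper259.AbsHt

/-- The points of projective `n`-space over the algebraic closure `Qbar` of `ℚ`. -/
abbrev PSpace (n : ℕ) : Type := Projectivization Qbar (Fin (n + 1) → Qbar)

/-- The standard absolute logarithmic height on projective space. -/
noncomputable def ht {n : ℕ} (x : PSpace n) : ℝ := absLogHeight x.rep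

/-- Zariski closed subsets of projective space: common zeros of a family of forms. -/
def IsZariskiClosed {n : ℕ} (Z : Set (PSpace n)) : Prop :=
  ∃ S : Set (MvPolynomial (Fin (n + 1)) Qbar), (∀ F ∈ S, ∃ e : ℕ, F.IsHomogeneous e) ∧
    Z = {x : PSpace n | ∀ F ∈ S, MvPolynomial.eval x.rep F = 0}

/-- Quasi-projective varieties, embedded in projective space: differences of two Zariski closed
sets. -/
def IsQuasiProjective {n : ℕ} (X : Set (PSpace n)) : Prop :=
  ∃ Z W : Set (PSpace n), IsZariskiClosed Z ∧ IsZariskiClosed W ∧ X = Z \ W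

/-- Morphisms of quasi-projective varieties: every point has a Zariski open neighbourhood on which
the map is given by forms of the same degree without common zeros. -/
def IsMorphism {n m : ℕ} {X : Set (PSpace n)} {Y : Set (PSpace m)} (π : X → Y) : Prop :=
  ∀ x₀ : X, ∃ (U : Set (PSpace n)) (d : ℕ) (F : Fin (m + 1) → MvPolynomial (Fin (n + 1)) Qbar),
    IsZariskiClosed Uᶜ ∧ (x₀ : PSpace n) ∈ U ∧ (∀ j, (F j).IsHomogeneous d) ∧
    ∀ x : X, (x : PSpace n) ∈ U →
      ∃ h : (fun j => MvPolynomial.eval (x : PSpace n).rep (F j)) ≠ 0,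
        (π x : PSpace m) = Projectivization.mk Qbar
          (fun j => MvPolynomial.eval (x : PSpace n).rep (F j)) h

/-- The ample heights on a quasi-projective variety embedded in projective space: positive
multiples of the standard height of the ambient projective space, up to a bounded function. -/
def IsAmpleHeight {n : ℕ} (X : Set (PSpace n)) (h : X → ℝ) : Prop :=
  ∃ r c : ℝ, 0 < r ∧ ∀ x : X, |h x - r * ht (x : PSpace n)| ≤ c

/-- `A ≍ B`: there are constants `c₁, c₂ > 0` and `c₃, c₄` with
`c₁ A - c₃ ≤ B ≤ c₂ A + c₄` everywhere. -/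
def Comparable {S : Type} (A B : S → ℝ) : Prop :=
  ∃ c₁ c₂ c₃ c₄ : ℝ, 0 < c₁ ∧ 0 < c₂ ∧ ∀ s, c₁ * A s - c₃ ≤ B s ∧ B s ≤ c₂ * A s + c₄

end Pool.Agent.Q281.Sol
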