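import Mathlib
import Pool.Agent.Q281.Sol.Alg

set_option autoImplicit false

/-!
# Solutions of polynomial systems with parameters: the generic point of a closed set of parameters
-/

namespace Pool.Agent.Q281.Sol

open MvPolynomial

variable {k : Type} [Field k] [IsAlgClosed k] {σ τ : Type} [Finite σ]

/-- the generic case without solutions -/
lemma step_empty (P : Set (MvPolynomial σ (MvPolynomial τ k)))
    (Q : MvPolynomial σ (MvPolynomial τ k)) (I : Ideal (MvPolynomial τ k)) [hI : I.IsPrime]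
    (K L : Type) [Field K] [Field L] [IsAlgClosed L] [Algebra (MvPolynomial τ k ⧸ I) K]
    [IsFractionRing (MvPolynomial τ k ⧸ I) K] [Algebra K L]
    (h : ∀ x : σ → L, (∀ p ∈ P, eval₂ ((algebraMap K L).comp ((algebraMap _ K).comp
      (Ideal.Quotient.mk I))) x p = 0) → eval₂ ((algebraMap K L).comp ((algebraMap _ K).comp
      (Ideal.Quotient.mk I))) x Q = 0) :
    ∃ d ∉ I, ∀ y : τ → k, (∀ r ∈ I, eval y r = 0) → eval y d ≠ 0 → ¬ ∃ x, IsSol P Q y x := by
  classical
  set D := MvPolynomial τ k ⧸ I with hD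
  let _ : Algebra (MvPolynomial σ D) (MvPolynomial σ K) := algebraMvPolynomial
  set J : Ideal (MvPolynomial σ D) := Ideal.span (map (Ideal.Quotient.mk I) '' P) with hJ
  set J' : Ideal (MvPolynomial σ K) := J.map (algebraMap (MvPolynomial σ D) (MvPolynomial σ K))
    with hJ'
  have halg : ∀ p : MvPolynomial σ D, algebraMap (MvPolynomial σ D) (MvPolynomial σ K) p =
      map (algebraMap D K) p := fun p => rfl
  have haev : ∀ (x : σ → L) (p : MvPolynomial σ (MvPolynomial τ k)),
      aeval x (algebraMap (MvPolynomial σ D) (MvPolynomial σ K) (map (Ideal.Quotient.mk I) p)) =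
      eval₂ ((algebraMap K L).comp ((algebraMap _ K).comp (Ideal.Quotient.mk I))) x p := by
    intro x p
    rw [halg, aeval_def, eval₂_map, eval₂_map]
    rfl
  have h1 : algebraMap (MvPolynomial σ D) (MvPolynomial σ K) (map (Ideal.Quotient.mk I) Q) ∈
      vanishingIdeal K (zeroLocus L J') := by
    rw [mem_vanishingIdeal_iff]
    intro x hx
    rw [mem_zeroLocus_iff] at hx
    rw [haev]
    apply h
    intro p hp
    rw [← haev]
    apply hx
    exact Ideal.mem_map_of_mem _ (Ideal.subset_span ⟨p, hp, rfl⟩)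
  rw [vanishingIdeal_zeroLocus_eq_radical] at h1
  obtain ⟨e, he⟩ := h1
  rw [← map_pow, hJ', IsLocalization.mem_map_algebraMap_iff
    ((nonZeroDivisors D).map (C (σ := σ))) (MvPolynomial σ K)] at he
  obtain ⟨⟨⟨a, ha⟩, ⟨s, hs⟩⟩, h2⟩ := he
  obtain ⟨m, hm, rfl⟩ := hs
  simp only at h2
  rw [← map_mul] at h2
  have hinj : Function.Injective (algebraMap (MvPolynomial σ D) (MvPolynomial σ K)) :=
    map_injective _ (IsFractionRing.injective D K)
  have h3 := hinj h2
  obtain ⟨d, hd⟩ := Ideal.Quotient.mk_surjective m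
  have hm0 : m ≠ 0 := nonZeroDivisors.ne_zero hm
  refine ⟨d, ?_, ?_⟩
  · intro hdI
    apply hm0
    rw [← hd, Ideal.Quotient.eq_zero_iff_mem]
    exact hdI
  · rintro y hy hdy ⟨x, hx1, hx2⟩
    let ev : D →+* k := Ideal.Quotient.lift I (eval y) hy
    have hev : ∀ p : MvPolynomial σ (MvPolynomial τ k),
        eval₂ ev x (map (Ideal.Quotient.mk I) p) = eval₂ (eval y) x p := by
      intro p
      rw [eval₂_map]
      rfl
    have hJ0 : ∀ p ∈ J, eval₂ ev x p = 0 := by
      intro p hp
      have hle : J ≤ RingHom.ker (eval₂Hom ev x) := by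
        rw [hJ, Ideal.span_le]
        rintro _ ⟨p, hp, rfl⟩
        rw [SetLike.mem_coe, RingHom.mem_ker, coe_eval₂Hom, hev]
        exact hx1 p hp
      exact hle hp
    have h4 := hJ0 a ha
    rw [← h3, eval₂_mul, eval₂_pow, hev, eval₂_C, ← hd] at h4
    have h5 : ev (Ideal.Quotient.mk I d) = eval y d := rfl
    rw [h5] at h4
    rcases mul_eq_zero.mp h4 with h6 | h6
    · exact pow_ne_zero e hx2 h6
    · exact hdy h6

/-- a generic point -/
theorem prime_step (P : Set (MvPolynomial σ (MvPolynomial τ k)))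
    (Q : MvPolynomial σ (MvPolynomial τ k)) (I : Ideal (MvPolynomial τ k)) [hI : I.IsPrime] :
    ∃ d ∉ I, ∃ N : σ → Polynomial (MvPolynomial τ k), ∀ y : τ → k, (∀ r ∈ I, eval y r = 0) →
      eval y d ≠ 0 → (∃ x, IsSol P Q y x) →
      ∃ x, IsSol P Q y x ∧ ∀ i, (N i).map (eval y) ≠ 0 ∧
        ((N i).map (eval y)).eval (x i) = 0 := by
  classical
  have := Fintype.ofFinite σ
  set K := FractionRing (MvPolynomial τ k ⧸ I) with hK
  set L := AlgebraicClosure K with hL
  set f : MvPolynomial τ k →+* L := (algebraMap K L).comp ((algebraMap _ K).comp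
      (Ideal.Quotient.mk I)) with hf
  have hker : ∀ r, f r = 0 → r ∈ I := by
    intro r hr
    rw [hf, RingHom.comp_apply, RingHom.comp_apply, map_eq_zero] at hr
    rw [← Ideal.Quotient.eq_zero_iff_mem]
    exact (map_eq_zero_iff _ (IsFractionRing.injective _ K)).mp hr
  by_cases h : ∀ x : σ → L, (∀ p ∈ P, eval₂ f x p = 0) → eval₂ f x Q = 0
  · obtain ⟨d, hd, h1⟩ := step_empty P Q I K L h
    exact ⟨d, hd, 0, fun y hy hdy hx => absurd hx (h1 y hy hdy)⟩
  · push Not at h
    obtain ⟨x, hxP, hxQ⟩ := h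
    have hpol : ∀ z : L, ∃ N : Polynomial (MvPolynomial τ k), (N.map f).eval z = 0 ∧
        N.leadingCoeff ∉ I := by
      intro z
      have h1 : IsAlgebraic K z := Algebra.IsAlgebraic.isAlgebraic z
      rw [← IsFractionRing.isAlgebraic_iff (MvPolynomial τ k ⧸ I) K L] at h1
      obtain ⟨r, hr0, hr⟩ := h1
      have hl : r ∈ Polynomial.lifts (Ideal.Quotient.mk I) := by
        rw [Polynomial.lifts_iff_coeff_lifts]
        intro n
        exact Ideal.Quotient.mk_surjective _
      obtain ⟨N, hN1, hN2⟩ := Polynomial.exists_degree_eq_of_mem_lifts hl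
      refine ⟨N, ?_, ?_⟩
      · rw [hf, ← RingHom.comp_assoc, ← Polynomial.map_map, hN1, Polynomial.eval_map]
        rw [Polynomial.aeval_def] at hr
        exact hr
      · intro hlc
        apply hr0
        rw [← Polynomial.leadingCoeff_eq_zero, Polynomial.leadingCoeff,
          ← Polynomial.natDegree_eq_of_degree_eq hN2, ← hN1, Polynomial.coeff_map,
          Polynomial.coeff_natDegree, Ideal.Quotient.eq_zero_iff_mem]
        exact hlc
    choose N hN1 hN2 using fun i => hpol (x i)
    obtain ⟨N', hN1', hN2'⟩ := hpol (eval₂ f x Q)⁻¹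
    refine ⟨(∏ i, (N i).leadingCoeff) * N'.leadingCoeff, ?_, N, ?_⟩
    · intro hmem
      rcases hI.mem_or_mem hmem with h1 | h1
      · obtain ⟨i, -, hi⟩ := Ideal.IsPrime.prod_mem_iff.mp h1
        exact hN2 i hi
      · exact hN2' h1
    · intro y hy hdy _
      rw [map_mul, map_prod] at hdy
      exact specialise f x (eval₂ f x Q)⁻¹ N N' hN1 hN1' y (fun r hr => hy r (hker r hr))
        (fun i => Finset.prod_ne_zero_iff.mp (left_ne_zero_of_mul hdy) i (Finset.mem_univ i))
        (right_ne_zero_of_mul hdy) P Q hxP (mul_inv_cancel₀ hxQ)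

end Pool.Agent.Q281.Sol
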