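import Mathlib
import Pool.Agent.Helper259.AbsHt
import Pool.Agent.Q281.Sol.Step

set_option autoImplicit false

/-!
# Solutions of bounded height of polynomial systems with parameters
-/

namespace Pool.Agent.Q281.Sol

open MvPolynomial
open Pool.Agent.Helper259.AbsHt

/-- the height of an algebraic number -/
noncomputable def hh (a : Qbar) : ℝ := absLogHeight ![1, a]

lemma hh_nonneg (a : Qbar) : 0 ≤ hh a := absLogHeight_nonneg _

lemma vec_ne (a : Qbar) : (![1, a] : Fin 2 → Qbar) ≠ 0 := by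
  intro h
  have := congrFun h 0
  simp at this

lemma hh_mul_le (a b : Qbar) : hh (a * b) ≤ hh a + hh b := by
  have h1 := absLogHeight_segre (vec_ne a) (vec_ne b)
  have h := absLogHeight_comp_le (![((0 : Fin 2), (0 : Fin 2)), (1, 1)] : Fin 2 → Fin 2 × Fin 2)
    (fun c : Fin 2 × Fin 2 => (![1, a] : Fin 2 → Qbar) c.1 * (![1, b] : Fin 2 → Qbar) c.2)
  have e : (fun c : Fin 2 × Fin 2 => (![1, a] : Fin 2 → Qbar) c.1 * (![1, b] : Fin 2 → Qbar) c.2) ∘
      (![((0 : Fin 2), (0 : Fin 2)), (1, 1)] : Fin 2 → Fin 2 × Fin 2) = ![1, a * b] := by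
    funext i
    fin_cases i <;> simp
  rw [e, h1] at h
  exact h

lemma hh_add_le : ∃ C : ℝ, 0 ≤ C ∧ ∀ a b : Qbar, hh (a + b) ≤ C + (hh a + hh b) := by
  set A : Fin 2 × (Fin 2 × Fin 2) → Qbar := fun c =>
    if c = (0, (0, 0)) ∨ c = (1, (1, 0)) ∨ c = (1, (0, 1)) then 1 else 0 with hA
  refine ⟨Real.log (Nat.card (Fin 2 × Fin 2)) + absLogHeight A, ?_, fun a b => ?_⟩
  · refine add_nonneg (Real.log_nonneg ?_) (absLogHeight_nonneg _)
    simp
  · have h1 := absLogHeight_linear A
      (fun c : Fin 2 × Fin 2 => (![1, a] : Fin 2 → Qbar) c.1 * (![1, b] : Fin 2 → Qbar) c.2)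
    rw [absLogHeight_segre (vec_ne a) (vec_ne b)] at h1
    have e : (fun j => ∑ i : Fin 2 × Fin 2, A (j, i) *
        ((![1, a] : Fin 2 → Qbar) i.1 * (![1, b] : Fin 2 → Qbar) i.2)) = ![1, a + b] := by
      funext j
      rw [Fintype.sum_prod_type]
      fin_cases j <;> simp [Fin.sum_univ_two, hA, add_comm]
    rw [e] at h1
    exact h1

variable {σ τ : Type} [Fintype σ] [Fintype τ]

lemma poly_ht (p : MvPolynomial τ Qbar) : ∃ C : ℝ, 0 ≤ C ∧ ∀ y : τ → Qbar,
    hh (eval y p) ≤ C * (1 + ∑ j, hh (y j)) := by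
  obtain ⟨A, hA, hadd⟩ := hh_add_le
  have hsum : ∀ y : τ → Qbar, 0 ≤ ∑ j, hh (y j) := fun y =>
    Finset.sum_nonneg fun j _ => hh_nonneg _
  induction p using MvPolynomial.induction_on with
  | C a =>
    refine ⟨hh a, hh_nonneg a, fun y => ?_⟩
    rw [eval_C]
    have := hsum y
    have := hh_nonneg a
    nlinarith
  | add p q hp hq =>
    obtain ⟨B, hB, h1⟩ := hp
    obtain ⟨D, hD, h2⟩ := hq
    refine ⟨A + (B + D), by positivity, fun y => ?_⟩
    rw [map_add]
    have := hsum y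
    have h3 := hadd (eval y p) (eval y q)
    have h4 := h1 y
    have h5 := h2 y
    nlinarith
  | mul_X p i hp =>
    obtain ⟨B, hB, h1⟩ := hp
    refine ⟨B + 1, by positivity, fun y => ?_⟩
    rw [map_mul, eval_X]
    have h2 := hh_mul_le (eval y p) (y i)
    have h3 := h1 y
    have h4 : hh (y i) ≤ ∑ j, hh (y j) :=
      Finset.single_le_sum (f := fun j => hh (y j)) (fun j _ => hh_nonneg _) (Finset.mem_univ i)
    nlinarith

lemma root_ht (N : Polynomial (MvPolynomial τ Qbar)) : ∃ C : ℝ, 0 ≤ C ∧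
    ∀ (y : τ → Qbar) (x : Qbar), N.map (eval y) ≠ 0 → (N.map (eval y)).eval x = 0 →
      hh x ≤ C * (1 + ∑ j, hh (y j)) := by
  obtain ⟨A, hA⟩ := absLogHeight_root N.natDegree
  choose B hB hB2 using fun i : Fin (N.natDegree + 1) => poly_ht (N.coeff i)
  refine ⟨max A 0 + ∑ i, B i, add_nonneg (le_max_right _ _) (Finset.sum_nonneg fun i _ => hB i),
    fun y x h1 h2 => ?_⟩
  have hs : 0 ≤ ∑ j, hh (y j) := Finset.sum_nonneg fun j _ => hh_nonneg _
  have h3 := hA (N.map (eval y)) x h1 Polynomial.natDegree_map_le h2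
  have h4 := absLogHeight_le_sum (Pool.Agent.Helper259.HtPoly.cv N.natDegree (N.map (eval y)))
  have h5 : ∑ i : Fin (N.natDegree + 1), absLogHeight
      ![1, Pool.Agent.Helper259.HtPoly.cv N.natDegree (N.map (eval y)) i] ≤
      ∑ i : Fin (N.natDegree + 1), B i * (1 + ∑ j, hh (y j)) := by
    refine Finset.sum_le_sum fun i _ => ?_
    have h6 := hB2 i y
    have h7 : Pool.Agent.Helper259.HtPoly.cv N.natDegree (N.map (eval y)) i =
        eval y (N.coeff i) := by
      rw [Pool.Agent.Helper259.HtPoly.cv, Polynomial.coeff_map]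
    rw [h7]
    exact h6
  rw [← Finset.sum_mul] at h5
  have h6 := le_max_left A 0
  have h7 := le_max_right A 0
  have h8 : hh x ≤ A + (∑ i, B i) * (1 + ∑ j, hh (y j)) := h3.trans (by linarith)
  nlinarith

/-- **Solutions of bounded height.** -/
theorem bounded_sol (P : Set (MvPolynomial σ (MvPolynomial τ Qbar)))
    (Q : MvPolynomial σ (MvPolynomial τ Qbar)) :
    ∃ C : ℝ, 0 ≤ C ∧ ∀ y : τ → Qbar, (∃ x, IsSol P Q y x) →
      ∃ x, IsSol P Q y x ∧ ∀ i, hh (x i) ≤ C * (1 + ∑ j, hh (y j)) := by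
  have key : ∀ I : Ideal (MvPolynomial τ Qbar), ∃ C : ℝ, 0 ≤ C ∧ ∀ y : τ → Qbar,
      (∀ r ∈ I, eval y r = 0) → (∃ x, IsSol P Q y x) →
      ∃ x, IsSol P Q y x ∧ ∀ i, hh (x i) ≤ C * (1 + ∑ j, hh (y j)) := by
    intro I
    induction I using IsNoetherian.induction with
    | hgt I ih =>
      have hmax : ∀ (A B : ℝ) (y : τ → Qbar), A ≤ B → A * (1 + ∑ j, hh (y j)) ≤
          B * (1 + ∑ j, hh (y j)) := fun A B y h =>
        mul_le_mul_of_nonneg_right h (add_nonneg zero_le_one
          (Finset.sum_nonneg fun j _ => hh_nonneg _))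
      have hsup : ∀ (d : MvPolynomial τ Qbar), d ∉ I → I < I ⊔ Ideal.span {d} := by
        intro d hd
        refine lt_of_le_of_ne le_sup_left ?_
        intro h
        apply hd
        rw [h]
        exact (le_sup_right : Ideal.span {d} ≤ I ⊔ Ideal.span {d}) (Ideal.mem_span_singleton_self d)
      have hzero : ∀ (d : MvPolynomial τ Qbar) (y : τ → Qbar), (∀ r ∈ I, eval y r = 0) →
          eval y d = 0 → ∀ r ∈ I ⊔ Ideal.span {d}, eval y r = 0 := by
        intro d y hy hdy r hr
        have hle : I ⊔ Ideal.span {d} ≤ RingHom.ker (eval y) := by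
          apply sup_le
          · intro r hr
            exact hy r hr
          · rw [Ideal.span_singleton_le_iff_mem]
            exact hdy
        exact hle hr
      by_cases htop : I = ⊤
      · refine ⟨0, le_rfl, fun y hy => ?_⟩
        exfalso
        have := hy 1 (by rw [htop]; trivial)
        rw [map_one] at this
        exact one_ne_zero this
      by_cases hprime : Ideal.IsPrime I
      · obtain ⟨d, hd, N, hN⟩ := prime_step P Q I (hI := hprime)
        obtain ⟨C₁, hC₁, h1⟩ := ih _ (hsup d hd)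
        choose B hB hB2 using fun i => root_ht (N i)
        refine ⟨max C₁ (∑ i, B i), hC₁.trans (le_max_left _ _), fun y hy hx => ?_⟩
        by_cases hdy : eval y d = 0
        · obtain ⟨x, hx1, hx2⟩ := h1 y (hzero d y hy hdy) hx
          exact ⟨x, hx1, fun i => (hx2 i).trans (hmax _ _ y (le_max_left _ _))⟩
        · obtain ⟨x, hx1, hx2⟩ := hN y hy hdy hx
          refine ⟨x, hx1, fun i => (hB2 i y (x i) (hx2 i).1 (hx2 i).2).trans (hmax _ _ y ?_)⟩
          exact (Finset.single_le_sum (f := B) (fun j _ => hB j) (Finset.mem_univ i)).trans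
            (le_max_right _ _)
      · rw [Ideal.isPrime_iff] at hprime
        push Not at hprime
        obtain ⟨a, b, hab, ha, hb⟩ := hprime htop
        obtain ⟨C₁, hC₁, h1⟩ := ih _ (hsup a ha)
        obtain ⟨C₂, hC₂, h2⟩ := ih _ (hsup b hb)
        refine ⟨max C₁ C₂, hC₁.trans (le_max_left _ _), fun y hy hx => ?_⟩
        have h3 : eval y a * eval y b = 0 := by
          rw [← map_mul]
          exact hy _ hab
        rcases mul_eq_zero.mp h3 with h | h
        · obtain ⟨x, hx1, hx2⟩ := h1 y (hzero a y hy h) hx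
          exact ⟨x, hx1, fun i => (hx2 i).trans (hmax _ _ y (le_max_left _ _))⟩
        · obtain ⟨x, hx1, hx2⟩ := h2 y (hzero b y hy h) hx
          exact ⟨x, hx1, fun i => (hx2 i).trans (hmax _ _ y (le_max_right _ _))⟩
  obtain ⟨C, hC, h⟩ := key ⊥
  refine ⟨C, hC, fun y hx => h y ?_ hx⟩
  intro r hr
  rw [Ideal.mem_bot] at hr
  rw [hr, map_zero]

end Pool.Agent.Q281.Sol
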