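import Mathlib
import Pool.Agent.Q281.Sol.Defs
import Pool.Agent.Q281.Sol.Hts

set_option autoImplicit false

/-!
# Points of small height in the fibres of a morphism of quasi-projective varieties
-/

namespace Pool.Agent.Q281.Sol

open MvPolynomial
open Pool.Agent.Helper259.AbsHt

lemma eval_smul' {n : ℕ} {F : MvPolynomial (Fin (n + 1)) Qbar} {d : ℕ} (hF : F.IsHomogeneous d)
    (c : Qbar) (x : Fin (n + 1) → Qbar) : eval (c • x) F = c ^ d * eval x F := by
  rw [MvPolynomial.eval_eq', MvPolynomial.eval_eq', Finset.mul_sum]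
  refine Finset.sum_congr rfl fun s hs => ?_
  have hdeg : ∑ i, s i = d := by
    have h := hF (MvPolynomial.mem_support_iff.mp hs)
    have h2 : Finsupp.degree s = d := by
      rw [← h, Finsupp.degree_eq_weight_one]; rfl
    rw [← h2, Finsupp.degree_eq_sum]
  simp only [Pi.smul_apply, smul_eq_mul, mul_pow]
  rw [Finset.prod_mul_distrib, Finset.prod_pow_eq_pow_sum, hdeg]
  ring

lemma ht_mk {n : ℕ} (x : Fin (n + 1) → Qbar) (hx : x ≠ 0) :
    ht (Projectivization.mk Qbar x hx : PSpace n) = absLogHeight x := by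
  obtain ⟨a, ha⟩ := Projectivization.exists_smul_eq_mk_rep Qbar x hx
  rw [ht, ← ha]
  exact absLogHeight_smul x a.ne_zero

lemma eval_rep_iff {n : ℕ} {F : MvPolynomial (Fin (n + 1)) Qbar} {d : ℕ} (hF : F.IsHomogeneous d)
    (x : Fin (n + 1) → Qbar) (hx : x ≠ 0) :
    eval (Projectivization.mk Qbar x hx : PSpace n).rep F = 0 ↔ eval x F = 0 := by
  obtain ⟨a, ha⟩ := Projectivization.exists_smul_eq_mk_rep Qbar x hx
  rw [← ha]
  have : (a • x : Fin (n + 1) → Qbar) = (a : Qbar) • x := rfl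
  rw [this, eval_smul' hF]
  have ha0 : (a : Qbar) ≠ 0 := a.ne_zero
  constructor
  · intro h
    rcases mul_eq_zero.mp h with h | h
    · exact absurd h (pow_ne_zero _ ha0)
    · exact h
  · intro h
    rw [h, mul_zero]

lemma mk_eval_rep {n m : ℕ} {F : Fin (m + 1) → MvPolynomial (Fin (n + 1)) Qbar} {d : ℕ}
    (hF : ∀ j, (F j).IsHomogeneous d) (x : Fin (n + 1) → Qbar) (hx : x ≠ 0)
    (h : (fun j => eval (Projectivization.mk Qbar x hx : PSpace n).rep (F j)) ≠ 0)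
    (h' : (fun j => eval x (F j)) ≠ 0) :
    (Projectivization.mk Qbar (fun j => eval (Projectivization.mk Qbar x hx : PSpace n).rep (F j)) h
      : PSpace m) = Projectivization.mk Qbar (fun j => eval x (F j)) h' := by
  obtain ⟨a, ha⟩ := Projectivization.exists_smul_eq_mk_rep Qbar x hx
  rw [Projectivization.mk_eq_mk_iff']
  refine ⟨(a : Qbar) ^ d, ?_⟩
  funext j
  rw [← ha]
  have : (a • x : Fin (n + 1) → Qbar) = (a : Qbar) • x := rfl
  rw [this, eval_smul' (hF j)]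
  rfl

/-- finitely many forms suffice to see that some form of a family does not vanish -/
lemma finite_cover {n : ℕ} {ι : Type} (H : ι → MvPolynomial (Fin (n + 1)) Qbar)
    (X : Set (Fin (n + 1) → Qbar)) (hX : ∀ x ∈ X, ∃ i, eval x (H i) ≠ 0) :
    ∃ t : Finset ι, ∀ x ∈ X, ∃ i ∈ t, eval x (H i) ≠ 0 := by
  classical
  have hfg : (Submodule.span (MvPolynomial (Fin (n + 1)) Qbar) (Set.range H)).FG :=
    IsNoetherian.noetherian _
  rw [Submodule.fg_span_iff_fg_span_finset_subset] at hfg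
  obtain ⟨s, hs, hspan⟩ := hfg
  choose f hf using fun p : s => hs p.2
  refine ⟨Finset.univ.image f, fun x hx => ?_⟩
  by_contra hcon
  push Not at hcon
  obtain ⟨i, hi⟩ := hX x hx
  apply hi
  have hle : Submodule.span (MvPolynomial (Fin (n + 1)) Qbar) (s : Set _) ≤
      (RingHom.ker (eval x) : Ideal _) := by
    rw [Submodule.span_le]
    intro p hp
    rw [SetLike.mem_coe, RingHom.mem_ker]
    have := hcon (f ⟨p, hp⟩) (Finset.mem_image_of_mem _ (Finset.mem_univ _))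
    rw [hf] at this
    exact this
  have h1 : H i ∈ Submodule.span (MvPolynomial (Fin (n + 1)) Qbar) (Set.range H) :=
    Submodule.subset_span ⟨i, rfl⟩
  rw [hspan] at h1
  exact hle h1

variable {n m : ℕ}

/-- the system for a point in the fibre -/
lemma chart_bound (S : Set (MvPolynomial (Fin (n + 1)) Qbar))
    (H : MvPolynomial (Fin (n + 1)) Qbar) (F : Fin (m + 1) → MvPolynomial (Fin (n + 1)) Qbar)
    (j₀ : Fin (n + 1)) (k₀ : Fin (m + 1)) :
    ∃ C : ℝ, 0 ≤ C ∧ ∀ (v : Fin (n + 1) → Qbar) (y : Fin (m + 1) → Qbar), v j₀ = 1 → y k₀ = 1 →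
      (∀ p ∈ S, eval v p = 0) → eval v H ≠ 0 → eval v (F k₀) ≠ 0 →
      (∀ k, eval v (F k) = y k * eval v (F k₀)) →
      ∃ v' : Fin (n + 1) → Qbar, v' j₀ = 1 ∧ (∀ p ∈ S, eval v' p = 0) ∧ eval v' H ≠ 0 ∧
        eval v' (F k₀) ≠ 0 ∧ (∀ k, eval v' (F k) = y k * eval v' (F k₀)) ∧
        absLogHeight v' ≤ C * (1 + absLogHeight y) := by
  let P : Set (MvPolynomial (Fin (n + 1)) (MvPolynomial (Fin (m + 1)) Qbar)) :=
    (map C '' S) ∪ {X j₀ - 1} ∪ Set.range fun k => map C (F k) - C (X k) * map C (F k₀)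
  let Q : MvPolynomial (Fin (n + 1)) (MvPolynomial (Fin (m + 1)) Qbar) := map C (H * F k₀)
  have hmap : ∀ (y : Fin (m + 1) → Qbar) (v : Fin (n + 1) → Qbar)
      (p : MvPolynomial (Fin (n + 1)) Qbar), eval₂ (eval y) v (map C p) = eval v p := by
    intro y v p
    rw [eval₂_map]
    have : (eval y).comp C = RingHom.id Qbar := by
      ext a
      simp
    rw [this]
    rfl
  have hiff : ∀ (y : Fin (m + 1) → Qbar) (v : Fin (n + 1) → Qbar), IsSol P Q y v ↔
      (v j₀ = 1 ∧ (∀ p ∈ S, eval v p = 0) ∧ eval v H ≠ 0 ∧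
        eval v (F k₀) ≠ 0 ∧ (∀ k, eval v (F k) = y k * eval v (F k₀))) := by
    intro y v
    constructor
    · rintro ⟨h1, h2⟩
      have hQ : eval₂ (eval y) v Q = eval v H * eval v (F k₀) := by
        rw [hmap, map_mul]
      rw [hQ] at h2
      refine ⟨?_, ?_, left_ne_zero_of_mul h2, right_ne_zero_of_mul h2, ?_⟩
      · have := h1 (X j₀ - 1) (Or.inl (Or.inr rfl))
        rw [eval₂_sub, eval₂_X, eval₂_one, sub_eq_zero] at this
        exact this
      · intro p hp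
        rw [← hmap y]
        exact h1 _ (Or.inl (Or.inl ⟨p, hp, rfl⟩))
      · intro k
        have := h1 _ (Or.inr ⟨k, rfl⟩)
        rw [eval₂_sub, eval₂_mul, eval₂_C, eval_X, hmap, hmap, sub_eq_zero] at this
        exact this
    · rintro ⟨h1, h2, h3, h4, h5⟩
      refine ⟨?_, ?_⟩
      · rintro p ((⟨p, hp, rfl⟩ | rfl) | ⟨k, rfl⟩)
        · rw [hmap]
          exact h2 p hp
        · rw [eval₂_sub, eval₂_X, eval₂_one, sub_eq_zero]
          exact h1
        · rw [eval₂_sub, eval₂_mul, eval₂_C, eval_X, hmap, hmap, sub_eq_zero]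
          exact h5 k
      · have hQ : eval₂ (eval y) v Q = eval v H * eval v (F k₀) := by
          rw [hmap, map_mul]
        rw [hQ]
        exact mul_ne_zero h3 h4
  obtain ⟨C₀, hC₀, h⟩ := bounded_sol P Q
  refine ⟨(n + 1) * (C₀ * (1 + (m + 1))), by positivity, ?_⟩
  intro v y h1 h2 h3 h4 h5 h6
  obtain ⟨v', hv', hht⟩ := h y ⟨v, (hiff y v).mpr ⟨h1, h3, h4, h5, h6⟩⟩
  obtain ⟨a1, a2, a3, a4, a5⟩ := (hiff y v').mp hv'
  refine ⟨v', a1, a2, a3, a4, a5, ?_⟩
  have hy : ∀ j, hh (y j) ≤ absLogHeight y := fun j => aff_le_of_eq_one y k₀ h2 j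
  have hy0 := absLogHeight_nonneg y
  have hsum : ∑ j, hh (y j) ≤ (m + 1) * absLogHeight y := by
    refine (Finset.sum_le_sum fun j _ => hy j).trans ?_
    rw [Finset.sum_const, Finset.card_univ, Fintype.card_fin, nsmul_eq_mul]
    push_cast
    exact le_rfl
  have hsum0 : 0 ≤ ∑ j, hh (y j) := Finset.sum_nonneg fun j _ => hh_nonneg _
  calc absLogHeight v' ≤ ∑ i, absLogHeight ![1, v' i] := absLogHeight_le_sum v'
    _ ≤ ∑ _i : Fin (n + 1), C₀ * (1 + ∑ j, hh (y j)) := Finset.sum_le_sum fun i _ => hht i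
    _ = (n + 1) * (C₀ * (1 + ∑ j, hh (y j))) := by
      rw [Finset.sum_const, Finset.card_univ, Fintype.card_fin, nsmul_eq_mul]
      push_cast
      rfl
    _ ≤ (n + 1) * (C₀ * ((1 + (m + 1)) * (1 + absLogHeight y))) := by
      apply mul_le_mul_of_nonneg_left _ (by positivity)
      apply mul_le_mul_of_nonneg_left _ hC₀
      have : (0 : ℝ) ≤ m := Nat.cast_nonneg m
      nlinarith
    _ = _ := by ring

/-- **Main theorem.** Upper bound, and points of small height in the fibres. -/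
theorem fibre_heights {X : Set (PSpace n)} {Y : Set (PSpace m)} (hX : IsQuasiProjective X)
    (π : X → Y) (hπ : IsMorphism π) :
    ∃ C : ℝ, 0 < C ∧ (∀ x : X, ht (π x : PSpace m) ≤ C * ht (x : PSpace n) + C) ∧
      ∀ x : X, ∃ x' : X, π x' = π x ∧ ht (x' : PSpace n) ≤ C * ht (π x : PSpace m) + C := by
  classical
  obtain ⟨Z, W, ⟨S, hS, hZ⟩, ⟨T, hT, hW⟩, hXZW⟩ := hX
  have hmem : ∀ x : PSpace n, x ∈ X ↔ (∀ F ∈ S, eval x.rep F = 0) ∧ ∃ F ∈ T, eval x.rep F ≠ 0 := by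
    intro x
    rw [hXZW, hZ, hW]
    simp only [Set.mem_sdiff, Set.mem_ofPred_eq, not_forall, exists_prop]
  -- charts
  have hchart : ∀ x₀ : X, ∃ (H : MvPolynomial (Fin (n + 1)) Qbar) (e d : ℕ)
      (F : Fin (m + 1) → MvPolynomial (Fin (n + 1)) Qbar), H.IsHomogeneous e ∧
      eval (x₀ : PSpace n).rep H ≠ 0 ∧ (∀ j, (F j).IsHomogeneous d) ∧
      (∀ x : PSpace n, eval x.rep H ≠ 0 → ∃ F ∈ T, eval x.rep F ≠ 0) ∧
      ∀ x : X, eval (x : PSpace n).rep H ≠ 0 →
        ∃ h : (fun j => eval (x : PSpace n).rep (F j)) ≠ 0,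
        (π x : PSpace m) = Projectivization.mk Qbar
          (fun j => eval (x : PSpace n).rep (F j)) h := by
    intro x₀
    obtain ⟨U, d, F, ⟨S', hS', hU⟩, hx₀, hF, h⟩ := hπ x₀
    have h1 : ∃ G ∈ S', eval (x₀ : PSpace n).rep G ≠ 0 := by
      by_contra hcon
      push Not at hcon
      have : (x₀ : PSpace n) ∈ Uᶜ := by
        rw [hU]
        exact hcon
      exact this hx₀
    obtain ⟨G, hG, hG0⟩ := h1
    obtain ⟨G', hG', hG'0⟩ := ((hmem x₀).mp x₀.2).2
    obtain ⟨e, he⟩ := hS' G hG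
    obtain ⟨e', he'⟩ := hT G' hG'
    refine ⟨G * G', e + e', d, F, he.mul he', ?_, hF, ?_, ?_⟩
    · rw [map_mul]
      exact mul_ne_zero hG0 hG'0
    · intro x hx
      rw [map_mul] at hx
      exact ⟨G', hG', right_ne_zero_of_mul hx⟩
    · intro x hx
      rw [map_mul] at hx
      apply h x
      by_contra hcon
      have h2 : (x : PSpace n) ∈ Uᶜ := hcon
      rw [hU] at h2
      exact left_ne_zero_of_mul hx (h2 G hG)
  choose H e d F hH hH0 hF hT' hπF using hchart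
  obtain ⟨t, ht'⟩ := finite_cover H {v | ∃ x : X, (x : PSpace n).rep = v} (by
    rintro _ ⟨x, rfl⟩
    exact ⟨x, hH0 x⟩)
  choose C₁ hC₁ using fun x₀ : X => absLogHeight_eval (d x₀) (F x₀) (hF x₀)
  choose C₂ hC₂0 hC₂ using fun (x₀ : X) (j₀ : Fin (n + 1)) (k₀ : Fin (m + 1)) =>
    chart_bound S (H x₀) (F x₀) j₀ k₀
  set A : ℝ := ∑ x₀ ∈ t, (|C₁ x₀| + d x₀) with hA
  set B : ℝ := ∑ x₀ ∈ t, ∑ j₀, ∑ k₀, C₂ x₀ j₀ k₀ with hB
  have hA0 : 0 ≤ A := Finset.sum_nonneg fun x₀ _ => by positivity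
  have hB0 : 0 ≤ B := Finset.sum_nonneg fun x₀ _ => Finset.sum_nonneg fun j₀ _ =>
    Finset.sum_nonneg fun k₀ _ => hC₂0 _ _ _
  have hBle : ∀ x₀ ∈ t, ∀ j₀ k₀, C₂ x₀ j₀ k₀ ≤ B := by
    intro x₀ hx₀ j₀ k₀
    have h1 : C₂ x₀ j₀ k₀ ≤ ∑ k, C₂ x₀ j₀ k :=
      Finset.single_le_sum (f := fun k => C₂ x₀ j₀ k) (fun k _ => hC₂0 _ _ _) (Finset.mem_univ _)
    have h2 : ∑ k, C₂ x₀ j₀ k ≤ ∑ j, ∑ k, C₂ x₀ j k :=
      Finset.single_le_sum (f := fun j => ∑ k, C₂ x₀ j k)
        (fun j _ => Finset.sum_nonneg fun k _ => hC₂0 _ _ _) (Finset.mem_univ _)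
    have h3 : ∑ j, ∑ k, C₂ x₀ j k ≤ B :=
      Finset.single_le_sum (f := fun x => ∑ j, ∑ k, C₂ x j k)
        (fun x _ => Finset.sum_nonneg fun j _ => Finset.sum_nonneg fun k _ => hC₂0 _ _ _) hx₀
    linarith
  refine ⟨A + B + 1, by positivity, ?_, ?_⟩
  · intro x
    obtain ⟨x₀, hx₀, hne⟩ := ht' _ ⟨x, rfl⟩
    obtain ⟨h, hx⟩ := hπF x₀ x hne
    rw [hx, ht_mk]
    have h1 := hC₁ x₀ (x : PSpace n).rep
    have h2 : |C₁ x₀| + d x₀ ≤ A :=
      Finset.single_le_sum (f := fun x₀ => |C₁ x₀| + (d x₀ : ℝ)) (fun x _ => by positivity) hx₀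
    have h3 : 0 ≤ ht (x : PSpace n) := absLogHeight_nonneg _
    have h4 : absLogHeight (x : PSpace n).rep = ht (x : PSpace n) := rfl
    rw [h4] at h1
    have h5 := le_abs_self (C₁ x₀)
    have h6 := abs_nonneg (C₁ x₀)
    have h7 : (0 : ℝ) ≤ d x₀ := Nat.cast_nonneg _
    nlinarith
  · intro x
    obtain ⟨x₀, hx₀, hne⟩ := ht' _ ⟨x, rfl⟩
    obtain ⟨h, hx⟩ := hπF x₀ x hne
    obtain ⟨j₀, hj₀⟩ : ∃ j, (x : PSpace n).rep j ≠ 0 := by
      by_contra hcon
      push Not at hcon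
      exact (x : PSpace n).rep_nonzero (funext hcon)
    obtain ⟨k₀, hk₀⟩ : ∃ k, eval (x : PSpace n).rep (F x₀ k) ≠ 0 := by
      by_contra hcon
      push Not at hcon
      exact h (funext hcon)
    set c : Qbar := ((x : PSpace n).rep j₀)⁻¹ with hc
    have hc0 : c ≠ 0 := inv_ne_zero hj₀
    set v : Fin (n + 1) → Qbar := c • (x : PSpace n).rep with hv
    have hvj : v j₀ = 1 := by
      rw [hv, Pi.smul_apply, smul_eq_mul, hc, inv_mul_cancel₀ hj₀]
    have hvF : ∀ k, eval v (F x₀ k) = c ^ d x₀ * eval (x : PSpace n).rep (F x₀ k) := fun k =>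
      eval_smul' (hF x₀ k) c _
    have hvk : eval v (F x₀ k₀) ≠ 0 := by
      rw [hvF]
      exact mul_ne_zero (pow_ne_zero _ hc0) hk₀
    set y : Fin (m + 1) → Qbar := fun k => eval v (F x₀ k) / eval v (F x₀ k₀) with hy
    have hyk : y k₀ = 1 := by
      rw [hy]
      exact div_self hvk
    have hS0 : ∀ p ∈ S, eval v p = 0 := by
      intro p hp
      obtain ⟨e, he⟩ := hS p hp
      rw [hv, eval_smul' he, ((hmem x).mp x.2).1 p hp, mul_zero]
    have hHv : eval v (H x₀) ≠ 0 := by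
      rw [hv, eval_smul' (hH x₀)]
      exact mul_ne_zero (pow_ne_zero _ hc0) hne
    have hyF : ∀ k, eval v (F x₀ k) = y k * eval v (F x₀ k₀) := by
      intro k
      rw [hy]
      exact (div_mul_cancel₀ _ hvk).symm
    obtain ⟨v', b1, b2, b3, b4, b5, b6⟩ := hC₂ x₀ j₀ k₀ v y hvj hyk hS0 hHv hvk hyF
    have hv'0 : v' ≠ 0 := by
      intro h0
      rw [h0] at b1
      exact zero_ne_one b1
    have hy0 : y ≠ 0 := by
      intro h0
      rw [h0] at hyk
      exact zero_ne_one hyk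
    -- the new point
    have hx'H : eval (Projectivization.mk Qbar v' hv'0 : PSpace n).rep (H x₀) ≠ 0 := by
      intro h0
      exact b3 ((eval_rep_iff (hH x₀) v' hv'0).mp h0)
    have hx'X : (Projectivization.mk Qbar v' hv'0 : PSpace n) ∈ X := by
      rw [hmem]
      refine ⟨?_, hT' x₀ _ hx'H⟩
      intro p hp
      obtain ⟨e, he⟩ := hS p hp
      exact (eval_rep_iff he v' hv'0).mpr (b2 p hp)
    have hπy : (π x : PSpace m) = Projectivization.mk Qbar y hy0 := by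
      rw [hx, Projectivization.mk_eq_mk_iff']
      refine ⟨eval v (F x₀ k₀) * (c ^ d x₀)⁻¹, ?_⟩
      funext k
      rw [Pi.smul_apply, smul_eq_mul, mul_right_comm, mul_comm (eval v (F x₀ k₀)) (y k), ← hyF,
        hvF, mul_right_comm, mul_inv_cancel₀ (pow_ne_zero _ hc0), one_mul]
    refine ⟨⟨_, hx'X⟩, ?_, ?_⟩
    · apply Subtype.ext
      obtain ⟨h', hx'⟩ := hπF x₀ ⟨_, hx'X⟩ hx'H
      have hne' : (fun k => eval v' (F x₀ k)) ≠ 0 := by
        intro h0
        exact b4 (congrFun h0 k₀)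
      rw [hx', hπy]
      have h1 := mk_eval_rep (hF x₀) v' hv'0 h' hne'
      refine h1.trans ?_
      rw [Projectivization.mk_eq_mk_iff']
      refine ⟨eval v' (F x₀ k₀), ?_⟩
      funext k
      rw [Pi.smul_apply, smul_eq_mul, b5 k, mul_comm]
    · change ht (Projectivization.mk Qbar v' hv'0 : PSpace n) ≤ _
      rw [ht_mk, hπy, ht_mk]
      have h1 := hBle x₀ hx₀ j₀ k₀
      have h2 := absLogHeight_nonneg y
      have h3 := hC₂0 x₀ j₀ k₀
      nlinarith

end Pool.Agent.Q281.Sol
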